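import Pool.Agent.H13.EDM.Targets
import Pool.Agent.H52.TD.DLB

/-!
# Board edm_modules, row DLG: lower bound for the dimension of a space of sections
-/

set_option autoImplicit false

open MvPolynomial
open Pool.Agent.H8.TD (lc dg Wsp)
open Pool.Agent.H52.TD (Wsp_mul Wsp_mono Wsp_A Wsp_B Wsp_powA Wsp_powB Wsp_closure Wsp_finite
  Wsp_one exists_omega)

namespace Pool.Agent.H21.EDM.DL

open Pool.Agent.H13.EDM

section

variable {κ C ι : Type} [Field κ] [Field C] [Algebra κ C] [Fintype ι]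

/-- monomials in algebraically independent elements of a subfield -/
theorem mono_indep {w : ι → C} (hw : AlgebraicIndependent κ w) (F : IntermediateField κ C)
    (hF : ∀ i, w i ∈ F) : LinearIndependent κ
      (fun e : ι →₀ ℕ => (⟨∏ i, w i ^ e i, prod_mem fun i _ => pow_mem (hF i) _⟩ : F)) := by
  apply LinearIndependent.of_comp F.val.toLinearMap
  have h1 := (basisMonomials ι κ).linearIndependent.map' (aeval w).toLinearMap
    (LinearMap.ker_eq_bot.2 hw)
  have h2 : (F.val.toLinearMap ∘ fun e : ι →₀ ℕ =>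
      (⟨∏ i, w i ^ e i, prod_mem fun i _ => pow_mem (hF i) _⟩ : F)) =
      (aeval w).toLinearMap ∘ (basisMonomials ι κ) := by
    funext e
    change (∏ i, w i ^ e i) = aeval w ((basisMonomials ι κ) e)
    rw [coe_basisMonomials, aeval_monomial, map_one, one_mul,
      Finsupp.prod_fintype _ _ (fun i => pow_zero _)]
  rw [h2]
  exact h1

theorem indep_of_trdeg (w : ι → C) (htr : Algebra.trdeg κ C = Fintype.card ι)
    (hfin : Algebra.IsAlgebraic (IntermediateField.adjoin κ (Set.range w)) C) :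
    AlgebraicIndependent κ w := by
  have halg3 : Algebra.IsAlgebraic (Algebra.adjoin κ (Set.range w)) C :=
    IntermediateField.isAlgebraic_adjoin_iff_top.1 hfin
  exact (Algebra.IsAlgebraic.isTranscendenceBasis_of_le_trdeg_of_finite κ w
    (by rw [htr, Cardinal.mk_fintype])).1

end

/-- the exponents -/
noncomputable def idx (p n : ℕ) : Finset (Fin (p + 1) →₀ ℕ) :=
  (Finset.univ : Finset (Fin (p + 1))).finsuppAntidiag n

theorem idx_card (p n : ℕ) : (idx p n).card = (n + p).choose p := by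
  unfold idx
  rw [Finset.card_finsuppAntidiag_nat_eq_choose, Finset.card_univ, Fintype.card_fin]
  have h1 : p + 1 + n - 1 = n + p := by omega
  rw [h1]
  exact Nat.choose_symm_add

theorem idx_sum {p n : ℕ} {f : Fin (p + 1) →₀ ℕ} (hf : f ∈ idx p n) :
    f 0 + ∑ i : Fin p, f i.succ = n := by
  unfold idx at hf
  rw [Finset.mem_finsuppAntidiag] at hf
  rw [← hf.1, Fin.sum_univ_succ]

theorem idx_inj {p n : ℕ} {f g : Fin (p + 1) →₀ ℕ} (hf : f ∈ idx p n) (hg : g ∈ idx p n)
    (h : ∀ i : Fin p, f i.succ = g i.succ) : f = g := by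
  have h1 := idx_sum hf
  have h2 := idx_sum hg
  have h3 : ∑ i : Fin p, f i.succ = ∑ i : Fin p, g i.succ := Finset.sum_congr rfl fun i _ => h i
  ext i
  refine Fin.cases ?_ (fun j => h j) i
  omega

/-- exponents of the product -/
noncomputable def ee {p q : ℕ} (f : Fin (p + 1) →₀ ℕ) (g : Fin (q + 1) →₀ ℕ) :
    Fin p ⊕ Fin q →₀ ℕ :=
  Finsupp.equivFunOnFinite.symm (Sum.elim (fun i => f i.succ) (fun j => g j.succ))

theorem ee_prod {C : Type} [Field C] {p q : ℕ} (u : Fin p → C) (v : Fin q → C)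
    (f : Fin (p + 1) →₀ ℕ) (g : Fin (q + 1) →₀ ℕ) :
    ∏ m, (Sum.elim u v) m ^ ee f g m = (∏ i, u i ^ f i.succ) * ∏ j, v j ^ g j.succ := by
  rw [Fintype.prod_sum_type]
  rfl

theorem pf_DLG : T_DLG := by
  intro p q a b k κ C _ _ _ _ _ _ _ A B s t htr hgen
  classical
  let u : Fin p → C := fun i => lc (s i) A
  let v : Fin q → C := fun i => lc (t i) B
  have hw : Set.range (Sum.elim u v) = (Set.range fun i => lc (s i) A) ∪
      Set.range fun i => lc (t i) B := Set.Sum.elim_range _ _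
  rw [← hw]
  rcases Nat.eq_zero_or_pos (dg κ (Set.range (Sum.elim u v))) with h0 | hq
  · exact ⟨0, fun n l => by rw [h0, zero_mul]; exact Nat.zero_le _⟩
  unfold dg at hq ⊢
  haveI : FiniteDimensional (IntermediateField.adjoin κ (Set.range (Sum.elim u v))) C :=
    FiniteDimensional.of_finrank_pos hq
  have hAI : AlgebraicIndependent κ (Sum.elim u v) := indep_of_trdeg (Sum.elim u v)
    (by rw [htr, Fintype.card_sum, Fintype.card_fin, Fintype.card_fin]) inferInstance
  obtain ⟨ω, hω, hωM⟩ := exists_omega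
    (IntermediateField.adjoin κ (Set.range (Sum.elim u v))) A B hgen
  have hn0 : ∀ p, ∃ n, ω p ∈ Wsp κ A B n n := fun p => Wsp_closure A B (hωM p)
  choose m hm using hn0
  have hF : ∀ i, Sum.elim u v i ∈ IntermediateField.adjoin κ (Set.range (Sum.elim u v)) :=
    fun i => IntermediateField.subset_adjoin κ _ ⟨i, rfl⟩
  have hli1 := mono_indep hAI _ hF
  have hli2 := linearIndependent_smul hli1 hω
  refine ⟨∑ p, m p, ?_⟩
  intro n l
  have hu : ∀ i, u i ∈ Wsp κ A B 1 0 := by
    intro i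
    refine Submodule.sum_mem _ (fun r _ => ?_)
    have h1 : s i r • A r = algebraMap k κ (s i r) • A r := (algebraMap_smul κ (s i r) (A r)).symm
    rw [h1]
    exact Submodule.smul_mem _ _ (Wsp_A A B r)
  have hv : ∀ i, v i ∈ Wsp κ A B 0 1 := by
    intro i
    refine Submodule.sum_mem _ (fun r _ => ?_)
    have h1 : t i r • B r = algebraMap k κ (t i r) • B r := (algebraMap_smul κ (t i r) (B r)).symm
    rw [h1]
    exact Submodule.smul_mem _ _ (Wsp_B A B r)
  have hprodu : ∀ (S : Finset (Fin p)) (f : Fin p → ℕ), ∏ i ∈ S, u i ^ f i ∈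
      Wsp κ A B (∑ i ∈ S, f i) 0 := by
    intro S f
    induction S using Finset.induction_on with
    | empty =>
      rw [Finset.prod_empty, Finset.sum_empty]
      exact Wsp_one A B
    | insert i S hi ih =>
      rw [Finset.prod_insert hi, Finset.sum_insert hi]
      have h := Wsp_mul A B (Wsp_powA A B (hu i) (f i)) ih
      rwa [Nat.add_zero] at h
  have hprodv : ∀ (S : Finset (Fin q)) (f : Fin q → ℕ), ∏ i ∈ S, v i ^ f i ∈
      Wsp κ A B 0 (∑ i ∈ S, f i) := by
    intro S f
    induction S using Finset.induction_on with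
    | empty =>
      rw [Finset.prod_empty, Finset.sum_empty]
      exact Wsp_one A B
    | insert i S hi ih =>
      rw [Finset.prod_insert hi, Finset.sum_insert hi]
      have h := Wsp_mul A B (Wsp_powB A B (hv i) (f i)) ih
      rwa [Nat.add_zero] at h
  generalize hqd : Module.finrank (IntermediateField.adjoin κ (Set.range (Sum.elim u v))) C = Q
    at *
  let g : ({x // x ∈ idx p n} × {x // x ∈ idx q l}) × Fin Q → (Fin p ⊕ Fin q →₀ ℕ) × Fin Q :=
    fun x => (ee x.1.1.1 x.1.2.1, x.2)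
  have hg : Function.Injective g := by
    rintro ⟨⟨⟨f, hf⟩, ⟨f', hf'⟩⟩, r⟩ ⟨⟨⟨f1, hf1⟩, ⟨f1', hf1'⟩⟩, r1⟩ h
    have h1 := congrArg Prod.fst h
    have h2 := congrArg Prod.snd h
    change ee f f' = ee f1 f1' at h1
    change r = r1 at h2
    have h3 : ∀ i : Fin p, f i.succ = f1 i.succ := fun i => by
      have h4 := DFunLike.congr_fun h1 (Sum.inl i)
      exact h4
    have h5 : ∀ i : Fin q, f' i.succ = f1' i.succ := fun i => by
      have h4 := DFunLike.congr_fun h1 (Sum.inr i)
      exact h4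
    have h6 := idx_inj hf hf1 h3
    have h7 := idx_inj hf' hf1' h5
    subst h6; subst h7; subst h2
    rfl
  have hli3 := hli2.comp g hg
  have h5 := finrank_span_eq_card hli3
  rw [Fintype.card_prod, Fintype.card_prod, Fintype.card_coe, Fintype.card_coe, idx_card,
    idx_card, Fintype.card_fin] at h5
  haveI := Wsp_finite (k := κ) A B (n + ∑ p, m p) (l + ∑ p, m p)
  have h6 : Q * ((n + p).choose p * (l + q).choose q) =
      (n + p).choose p * (l + q).choose q * Q := by ring
  rw [h6, ← h5]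
  apply Submodule.finrank_mono
  rw [Submodule.span_le]
  rintro _ ⟨⟨⟨⟨f, hf⟩, ⟨f', hf'⟩⟩, r⟩, rfl⟩
  have h7 := hprodu Finset.univ (fun i => f i.succ)
  have h8 := hprodv Finset.univ (fun i => f' i.succ)
  have h10 := Wsp_mul A B (Wsp_mul A B h7 h8) (hm r)
  have h11 : m r ≤ ∑ p, m p :=
    Finset.single_le_sum (f := m) (fun _ _ => Nat.zero_le _) (Finset.mem_univ r)
  have hs1 := idx_sum hf
  have hs2 := idx_sum hf'
  have h12 := Wsp_mono (k := κ) A B (n' := n + ∑ p, m p) (l' := l + ∑ p, m p)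
    (by omega) (by omega) h10
  have h13 : (((fun p : (Fin p ⊕ Fin q →₀ ℕ) × Fin Q =>
      (⟨∏ i, (Sum.elim u v) i ^ p.1 i, prod_mem fun i _ => pow_mem (hF i) _⟩ :
        IntermediateField.adjoin κ (Set.range (Sum.elim u v))) • ω p.2) ∘ g)
        ((⟨f, hf⟩, ⟨f', hf'⟩), r)) =
      (∏ i, u i ^ f i.succ) * (∏ j, v j ^ f' j.succ) * ω r := by
    change (∏ m, (Sum.elim u v) m ^ ee f f' m) * ω r = _
    rw [ee_prod]
  change (((fun p : (Fin p ⊕ Fin q →₀ ℕ) × Fin Q =>
      (⟨∏ i, (Sum.elim u v) i ^ p.1 i, prod_mem fun i _ => pow_mem (hF i) _⟩ :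
        IntermediateField.adjoin κ (Set.range (Sum.elim u v))) • ω p.2) ∘ g)
        ((⟨f, hf⟩, ⟨f', hf'⟩), r)) ∈ _
  rw [h13]
  exact h12

end Pool.Agent.H21.EDM.DL
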