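import Pool.Agent.H13.EDM.Targets

/-!
# Mixed degrees, row SEQ: the degrees of the iterates
-/

set_option autoImplicit false

open Pool.Agent.H8.TD (lc dg Wsp)
open Pool.Agent.H13.EDM

namespace Pool.Agent.H21.EDM.SQ

theorem cancel {x E d P z w : ℕ} (hE : 1 ≤ E) (hd : 1 ≤ d)
    (h : x * (E * d) ≤ P * ((E * z) * w)) : x ≤ P * (w * z) := by
  have h1 : E * (x * d) ≤ E * (P * (w * z)) := by
    calc E * (x * d) = x * (E * d) := by ring
      _ ≤ _ := h
      _ = _ := by ring
  have h2 := Nat.le_of_mul_le_mul_left h1 hE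
  exact (Nat.le_mul_of_pos_right x hd).trans h2

theorem pf_SEQ (hEXG : T_EXG) (hMDM : T_MDM) (hDI : T_DI) (hHIX : T_HIX) (hPBM : T_PBM) :
    T_SEQ := by
  classical
  intro N a k K _ _ _ _ τ ξ htr htop
  have hFG : (⊤ : IntermediateField k K).FG := by
    rw [IntermediateField.fg_def]
    exact ⟨Set.range ξ, Set.finite_range ξ, htop⟩
  have hinf : Infinite k := CharZero.infinite k
  set E := Module.finrank τ.fieldRange K with hE
  have hE1 : 1 ≤ E := (hPBM N a 0 k K τ (fun _ => ξ) htr hFG).1
  have hpb : ∀ (m : ℕ) (φ : Fin N → Fin a → K),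
      md k (fun i l => τ^[m] (φ i l)) = E ^ m * md k φ :=
    fun m φ => (hPBM N a m k K τ φ htr hFG).2
  -- algebraicity
  have halg : ∀ m : ℕ, Algebra.IsAlgebraic
      (IntermediateField.adjoin k (Set.range fun l => τ^[m] (ξ l))) K := by
    intro m
    have h1 : IntermediateField.adjoin k (Set.range fun l => τ^[m] (ξ l)) =
        (τ ^ m).fieldRange := by
      rw [AlgHom.fieldRange_eq_map, ← htop, IntermediateField.adjoin_map]
      congr 1
      rw [← Set.range_comp]
      congr 1
      funext l
      simp [AlgHom.coe_pow]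
    rw [h1]
    have h2 := (hPBM N a 0 k K (τ ^ m) (fun _ => ξ) htr hFG).1
    have h3 : FiniteDimensional (τ ^ m).fieldRange K := Module.finite_of_finrank_pos h2
    infer_instance
  have halg0 : Algebra.IsAlgebraic (IntermediateField.adjoin k (Set.range ξ)) K := halg 0
  have hal2 : ∀ (m : ℕ) (ψ : Fin a → K), (ψ = (fun l => τ^[m] (ξ l)) ∨ ψ = ξ) →
      Algebra.IsAlgebraic (IntermediateField.adjoin k (Set.range ψ)) K := by
    rintro m ψ (rfl | rfl)
    · exact halg m
    · exact halg0
  have hdj1 : ∀ j m, 1 ≤ dj k N τ ξ j m := by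
    intro j m
    obtain ⟨t, ht⟩ := hEXG 0 N a k k K (Fin.elim0 : Fin 0 → K)
      (fun i : Fin N => if (i : ℕ) < j then (fun l => τ^[m] (ξ l)) else ξ)
      (by rw [Nat.zero_add]; exact htr) hFG
      (by
        rw [algebraicIndependent_empty_type_iff]
        exact (algebraMap k K).injective)
      (by
        intro i
        apply hal2 m
        by_cases h : (i : ℕ) < j
        · left; rw [if_pos h]
        · right; rw [if_neg h])
    have h1 := (hMDM N a k K
      (fun i : Fin N => if (i : ℕ) < j then (fun l => τ^[m] (ξ l)) else ξ) htr hFG).1 t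
    refine le_trans ?_ h1
    have h2 : (Set.range (Fin.elim0 : Fin 0 → K)) = ∅ := Set.range_eq_empty _
    rw [h2, Set.empty_union] at ht
    exact ht
  refine ⟨hE1, ?_, ?_, hdj1, ?_, ?_, ?_⟩
  · intro m
    simp only [dj, Nat.not_lt_zero, if_false]
  · intro m
    have h1 : dj k N τ ξ N m = md k (fun (_ : Fin N) l => τ^[m] (ξ l)) := by
      unfold dj
      congr 1
      funext i
      rw [if_pos i.2]
    have h2 : dj k N τ ξ 0 0 = md k (fun _ : Fin N => ξ) := by
      simp only [dj, Nat.not_lt_zero, if_false]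
    rw [h1, h2]
    exact hpb m (fun _ => ξ)
  · intro j m hj
    have hj0 : j < N := by omega
    have hj1 : j + 1 < N := by omega
    have h := hHIX N a k K (fun l => τ^[m] (ξ l)) ξ
      (fun i => if (i : ℕ) < j then (fun l => τ^[m] (ξ l)) else ξ)
      ⟨j, hj0⟩ ⟨j + 1, hj1⟩ htr hFG (by
        intro h
        have := congrArg Fin.val h
        simp at this)
    have key : ∀ (u v : Fin a → K) (c : ℕ),
        (∀ i : Fin N, (i : ℕ) < j → (i : ℕ) < c) →
        (∀ i : Fin N, j + 2 ≤ (i : ℕ) → ¬ (i : ℕ) < c) →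
        (u = if j < c then (fun l => τ^[m] (ξ l)) else ξ) →
        (v = if j + 1 < c then (fun l => τ^[m] (ξ l)) else ξ) →
        Function.update (Function.update
          (fun i : Fin N => if (i : ℕ) < j then (fun l => τ^[m] (ξ l)) else ξ)
          ⟨j, hj0⟩ u) ⟨j + 1, hj1⟩ v =
        fun i : Fin N => if (i : ℕ) < c then (fun l => τ^[m] (ξ l)) else ξ := by
      intro u v c h1 h2 h3 h4
      funext i
      by_cases hi1 : (i : ℕ) = j + 1
      · obtain rfl : i = ⟨j + 1, hj1⟩ := Fin.ext hi1
        rw [Function.update_self, h4]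
      · have e1 : i ≠ ⟨j + 1, hj1⟩ := fun h => hi1 (congrArg Fin.val h)
        rw [Function.update_of_ne e1]
        by_cases hi0 : (i : ℕ) = j
        · obtain rfl : i = ⟨j, hj0⟩ := Fin.ext hi0
          rw [Function.update_self, h3]
        · have e2 : i ≠ ⟨j, hj0⟩ := fun h => hi0 (congrArg Fin.val h)
          rw [Function.update_of_ne e2]
          by_cases hlt : (i : ℕ) < j
          · simp only [hlt, if_true, h1 i hlt]
          · have : ¬ (i : ℕ) < c := h2 i (by omega)
            simp only [hlt, if_false, this]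
    rw [key _ _ (j + 2) (fun i hi => by omega) (fun i hi => by omega)
        (by rw [if_pos (by omega)]) (by rw [if_pos (by omega)]),
      key _ _ j (fun i hi => by omega) (fun i hi => by omega)
        (by rw [if_neg (by omega)]) (by rw [if_neg (by omega)]),
      key _ _ (j + 1) (fun i hi => by omega) (fun i hi => by omega)
        (by rw [if_pos (by omega)]) (by rw [if_neg (by omega)])] at h
    rw [mul_comm]
    exact h
  · intro j m m' hj
    have h := hDI N a j k K (fun l => τ^[m + m'] (ξ l)) (fun l => τ^[m] (ξ l)) (fun _ => ξ)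
      htr hFG hj
    have h1 : md k (fun _ : Fin N => fun l => τ^[m] (ξ l)) = E ^ m * dj k N τ ξ 0 0 := by
      have h2 : dj k N τ ξ 0 0 = md k (fun _ : Fin N => ξ) := by
        simp only [dj, Nat.not_lt_zero, if_false]
      rw [h2]
      exact hpb m (fun _ => ξ)
    have h3 : md k (fun i : Fin N => if (i : ℕ) < j then (fun l => τ^[m + m'] (ξ l)) else
        (fun l => τ^[m] (ξ l))) = E ^ m * dj k N τ ξ j m' := by
      unfold dj
      rw [← hpb m]
      congr 1
      funext i l
      by_cases hi : (i : ℕ) < j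
      · simp only [hi, if_true]
        exact Function.iterate_add_apply _ _ _ _
      · simp only [hi, if_false]
    rw [h1, h3] at h
    exact cancel (Nat.one_le_pow _ _ hE1) (hdj1 0 0) h
  · intro j m hj
    have h := hDI N a j k K (fun l => τ^[m + m] (ξ l)) (fun l => τ^[m] (ξ l))
      (fun i => if (i : ℕ) = j then (fun l => τ^[m] (ξ l)) else ξ) htr hFG hj.le
    have h1 : md k (fun _ : Fin N => fun l => τ^[m] (ξ l)) = E ^ m * dj k N τ ξ 0 0 := by
      have h2 : dj k N τ ξ 0 0 = md k (fun _ : Fin N => ξ) := by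
        simp only [dj, Nat.not_lt_zero, if_false]
      rw [h2]
      exact hpb m (fun _ => ξ)
    have h3 : md k (fun i : Fin N => if (i : ℕ) < j then (fun l => τ^[m + m] (ξ l)) else
        (fun l => τ^[m] (ξ l))) = E ^ m * dj k N τ ξ j m := by
      unfold dj
      rw [← hpb m]
      congr 1
      funext i l
      by_cases hi : (i : ℕ) < j
      · simp only [hi, if_true]
        exact Function.iterate_add_apply _ _ _ _
      · simp only [hi, if_false]
    have h4 : md k (fun i : Fin N => if (i : ℕ) < j then (fun l => τ^[m] (ξ l)) else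
        if (i : ℕ) = j then (fun l => τ^[m] (ξ l)) else ξ) = dj k N τ ξ (j + 1) m := by
      unfold dj
      congr 1
      funext i
      by_cases hi : (i : ℕ) < j
      · simp only [hi, if_true, show (i : ℕ) < j + 1 by omega]
      · by_cases hi2 : (i : ℕ) = j
        · simp only [hi2, lt_irrefl, if_false, if_true, Nat.lt_succ_self]
        · simp only [hi, hi2, if_false, show ¬ (i : ℕ) < j + 1 by omega]
    rw [h1, h3, h4] at h
    have h5 := cancel (Nat.one_le_pow m _ hE1) (hdj1 0 0) h
    rw [mul_comm (dj k N τ ξ j m)]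
    exact h5

end Pool.Agent.H21.EDM.SQ
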