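import Pool.Agent.H13.EDM.Targets
import Pool.Agent.H8.TD.All

/-!
# Mixed degrees, row ZCT: the zeros of a section which is divisible by many functions `g - c`
-/

set_option autoImplicit false

open MvPolynomial
open Pool.Agent.H8.TD (lc dg Wsp)
open Pool.Agent.H13.EDM
open Pool.Agent.H35.TD (Tm Tm_finite Wsp_eq crt)

namespace Pool.Agent.H21.EDM.ZC

theorem span_W {κ C : Type} [Field κ] [Field C] [Algebra κ C] (E : IntermediateField κ C)
    {a b : ℕ} (A : Fin a → C) (B : Fin b → C) (n l : ℕ) :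
    Submodule.span E ((Wsp κ A B n l : Submodule κ C) : Set C) = Wsp E A B n l := by
  unfold Wsp
  exact Submodule.span_span_of_tower κ E _

theorem Wsp_mono {κ C : Type} [Field κ] [Field C] [Algebra κ C] (E : IntermediateField κ C)
    {a b : ℕ} (A : Fin a → C) (B : Fin b → C) (n l : ℕ) (x : C) (hx : x ∈ Wsp κ A B n l) :
    x ∈ Wsp E A B n l := by
  rw [← span_W]
  exact Submodule.subset_span hx

/-- a point at which a polynomial does not vanish -/
theorem exists_pt {k C : Type} [Field k] [Field C] [Algebra k C] {J : ℕ} (X : Set k)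
    (hX : X.Infinite) (s' : MvPolynomial (Fin J) C) (h : s' ≠ 0) :
    ∃ c : Fin J → k, Function.Injective c ∧ (∀ j, c j ∈ X) ∧
      eval (fun j => algebraMap k C (c j)) s' ≠ 0 := by
  classical
  set V : MvPolynomial (Fin J) C := ∏ p ∈ (Finset.univ : Finset (Fin J)).offDiag,
    (MvPolynomial.X p.1 - MvPolynomial.X p.2) with hV
  have hV0 : V ≠ 0 := by
    rw [hV, Finset.prod_ne_zero_iff]
    intro p hp
    rw [Finset.mem_offDiag] at hp
    rw [sub_ne_zero]
    intro h1
    exact hp.2.2 (MvPolynomial.X_injective h1)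
  by_contra hcon
  push Not at hcon
  have hinf : ∀ _ : Fin J, Set.Infinite ((algebraMap k C) '' X) := fun _ =>
    hX.image (algebraMap k C).injective.injOn
  have h0 : V * s' = 0 := by
    apply MvPolynomial.funext_set (fun _ : Fin J => (algebraMap k C) '' X) hinf
    intro x hx
    have hx' : ∀ j, ∃ c ∈ X, algebraMap k C c = x j := fun j => hx j (Set.mem_univ j)
    choose c hc hcx using hx'
    have hxe : x = fun j => algebraMap k C (c j) := funext fun j => (hcx j).symm
    rw [map_mul, map_zero]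
    by_cases hinj : Function.Injective c
    · rw [hxe, hcon c hinj hc, mul_zero]
    · rw [Function.not_injective_iff] at hinj
      obtain ⟨i, j, hij, hne⟩ := hinj
      have : eval x V = 0 := by
        rw [hV, map_prod]
        apply Finset.prod_eq_zero (i := (i, j))
        · rw [Finset.mem_offDiag]
          exact ⟨Finset.mem_univ _, Finset.mem_univ _, hne⟩
        · rw [map_sub, eval_X, eval_X, ← hcx i, ← hcx j, hij, sub_self]
      rw [this, zero_mul]
  rcases mul_eq_zero.mp h0 with h1 | h1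
  · exact hV0 h1
  · exact h h1

theorem pf_ZCT (hADS : T_ADS) (hTRD : T_TRD) (hIFD : T_IFD) (hFGU : T_FGU) : T_ZCT := by
  classical
  intro e a b n l J Y Y' k κ C _ _ _ _ _ _ _ _ _ A B g ρ htr hFG hg hY hY' hJ
  by_cases h0 : dg κ (insert g (Set.range ρ)) = 0
  · rw [h0, mul_zero]; exact Nat.zero_le _
  have hai : AlgebraicIndependent κ (Fin.cons g ρ : Fin (e + 1) → C) := by
    rw [← hIFD (e + 1) κ C _ htr hFG, Fin.range_cons]
    omega
  have haρ : AlgebraicIndependent κ ρ := by
    have := hai.comp Fin.succ (Fin.succ_injective e)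
    have h2 : (Fin.cons g ρ : Fin (e + 1) → C) ∘ Fin.succ = ρ := by
      funext i; simp
    rwa [h2] at this
  set κ₁ : IntermediateField κ C := IntermediateField.adjoin κ (Set.range ρ) with hκ₁
  have hst : IsScalarTower k κ₁ C := IsScalarTower.of_algebraMap_eq fun x => rfl
  have htr1 : Algebra.trdeg κ₁ C = (1 : ℕ) := hTRD e 1 κ C ρ haρ htr
  have hFG1 : (⊤ : IntermediateField κ₁ C).FG := hFGU κ C (Set.range ρ) hFG
  have hdg : ∀ x : C, dg κ₁ {x} = dg κ (insert x (Set.range ρ)) := by
    intro x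
    have h1 := hADS κ C (Set.range ρ) {x}
    rw [Set.union_singleton] at h1
    exact h1
  have hdg0 : dg κ₁ {g} ≠ 0 := by rw [hdg]; exact h0
  have hfd : FiniteDimensional (IntermediateField.adjoin κ₁ ({g} : Set C)) C :=
    Module.finite_of_finrank_pos (Nat.pos_of_ne_zero hdg0)
  have htrg : Transcendental κ₁ g := by
    have h1 : AlgebraicIndependent κ₁ (fun _ : Fin 1 => g) := by
      rw [← hIFD 1 κ₁ C _ (by exact_mod_cast htr1) hFG1, Set.range_const]
      omega
    rw [algebraicIndependent_unique_type_iff] at h1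
    exact h1
  -- the section
  have hWfin : Module.Finite κ (Wsp κ A B n l) := by
    rw [Wsp_eq]
    exact FiniteDimensional.span_of_finite _ (Tm_finite A B n l)
  obtain ⟨s, s', hs', hss, hsW⟩ := Pool.Agent.H8.TD.Al.axf κ C C (Wsp κ A B n l) g J
    (Module.finrank (IntermediateField.adjoin κ {g})
      (Wsp (IntermediateField.adjoin κ {g}) A B n l)) Function.injective_id hg hWfin
    (by
      have h1 := span_W (IntermediateField.adjoin κ ({g} : Set C)) A B n l
      have h2 : (algebraMap C C '' ((Wsp κ A B n l : Submodule κ C) : Set C)) =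
          ((Wsp κ A B n l : Submodule κ C) : Set C) := by
        rw [Algebra.algebraMap_self, RingHom.coe_id, Set.image_id]
      rw [h2]
      exact le_of_eq (by rw [← h1]; rfl)) hJ
  -- the ring
  obtain ⟨T, hT⟩ := hFG
  set G : Set C := Set.range A ∪ Set.range B ∪ {g} ∪ (s'.coeffs : Set C) ∪ (T : Set C) with hG
  have hGfin : G.Finite := by
    rw [hG]
    exact ((((Set.finite_range A).union (Set.finite_range B)).union
      (Set.finite_singleton g)).union (Finset.finite_toSet _)).union (Finset.finite_toSet _)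
  set R : Subalgebra κ₁ C := Algebra.adjoin κ₁ G with hR
  have hAR : ∀ i, A i ∈ R := fun i => Algebra.subset_adjoin
    (Or.inl (Or.inl (Or.inl (Or.inl ⟨i, rfl⟩))))
  have hBR : ∀ i, B i ∈ R := fun i => Algebra.subset_adjoin
    (Or.inl (Or.inl (Or.inl (Or.inr ⟨i, rfl⟩))))
  have hgR : g ∈ R := Algebra.subset_adjoin (Or.inl (Or.inl (Or.inr rfl)))
  have hcR : ∀ c ∈ s'.coeffs, c ∈ R := fun c hc => Algebra.subset_adjoin
    (Or.inl (Or.inr hc))
  have hRFG : R.FG := by
    rw [Subalgebra.fg_def]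
    exact ⟨G, hGfin, rfl⟩
  have hRtop : IntermediateField.adjoin κ₁ (R : Set C) = ⊤ :=
    Pool.Agent.H35.TD.top_of (T : Set C) κ₁ hT _ (fun x hx => Algebra.subset_adjoin (Or.inr hx))
  have hex := Pool.Agent.H8.TD.Al.low κ₁ C R ⟨g, hgR⟩ hRFG hRtop htrg hfd
  have hex' := hex.preimage (f := algebraMap k κ₁) ((algebraMap k κ₁).injective.injOn)
  obtain ⟨c, hcinj, hcX, hc0⟩ := exists_pt (C := C) _ hex'.infinite_compl s' hs'
  -- the value
  set S' : C := eval (fun j => algebraMap k C (c j)) s' with hS'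
  set S : C := eval (fun j => algebraMap k C (c j)) s with hS
  have hkR : ∀ x : k, algebraMap k C x ∈ R := by
    intro x
    rw [IsScalarTower.algebraMap_apply k κ₁ C]
    exact R.algebraMap_mem _
  have hS'R : S' ∈ R := by
    rw [hS', eval_eq]
    refine R.sum_mem fun d hd => R.mul_mem (hcR _ ?_) (R.prod_mem fun i _ => R.pow_mem (hkR _) _)
    exact MvPolynomial.coeff_mem_coeffs _ (MvPolynomial.mem_support_iff.mp hd)
  have hSW : S ∈ Wsp κ₁ A B n l := by
    rw [hS, eval_eq]
    refine Submodule.sum_mem _ fun d _ => ?_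
    have h1 : coeff d s * ∏ i ∈ d.support, (algebraMap k C (c i)) ^ d i =
        (algebraMap k κ₁ (∏ i ∈ d.support, (c i) ^ d i)) • coeff d s := by
      rw [Algebra.smul_def, ← IsScalarTower.algebraMap_apply k κ₁ C, map_prod, mul_comm]
      simp only [map_pow]
    rw [h1]
    exact Submodule.smul_mem _ _ (Wsp_mono κ₁ A B n l _ (hsW d))
  have hSS : S = (∏ j, (algebraMap k C (c j) - g)) * S' := by
    rw [hS, hss, map_mul, map_prod]
    congr 1
    refine Finset.prod_congr rfl fun j _ => ?_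
    rw [map_sub, eval_X, eval_C]
  have hS0 : S ≠ 0 := by
    rw [hSS]
    refine mul_ne_zero ?_ hc0
    rw [Finset.prod_ne_zero_iff]
    intro j _ h1
    apply hg
    rw [sub_eq_zero] at h1
    rw [← h1, IsScalarTower.algebraMap_apply k κ C]
    exact isAlgebraic_algebraMap _
  have hTR : (Tm A B n l) ⊆ R := by
    rintro q ⟨α, β, -, -, rfl⟩
    exact R.mul_mem (R.prod_mem fun i _ => R.pow_mem (hAR i) _)
      (R.prod_mem fun i _ => R.pow_mem (hBR i) _)
  have hSR : S ∈ R := by
    have h5 : Submodule.span κ₁ (Tm A B n l) ≤ Subalgebra.toSubmodule R := by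
      rw [Submodule.span_le]
      exact hTR
    exact h5 hSW
  obtain ⟨hfin, hle⟩ := Pool.Agent.H8.TD.Al.clz k κ₁ C a b A B Y Y' n l R ⟨g, hfd⟩ hRFG hAR hBR
    (fun s => by rw [hdg]; exact hY s) (fun s => by rw [hdg]; exact hY' s) ⟨S, hSR⟩ hSW
    (fun h => hS0 (congrArg Subtype.val h))
  have hinj2 : Function.Injective (fun j => algebraMap k κ₁ (c j)) :=
    (algebraMap k κ₁).injective.comp hcinj
  have h6 := crt R ⟨g, hgR⟩ ⟨S, hSR⟩ (Finset.univ.map ⟨_, hinj2⟩) (by
    rw [Finset.prod_map]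
    refine ⟨⟨(∏ j : Fin J, (-1 : C)) * S', R.mul_mem (R.prod_mem fun _ _ =>
      R.neg_mem R.one_mem) hS'R⟩, ?_⟩
    apply Subtype.ext
    have h7 : ((∏ x : Fin J, ((⟨g, hgR⟩ : R) - algebraMap κ₁ R (algebraMap k κ₁ (c x))) : R) : C) =
        ∏ x : Fin J, (g - algebraMap k C (c x)) :=
      (map_prod R.val (fun c' : Fin J => (⟨g, hgR⟩ : R) -
        algebraMap κ₁ R (algebraMap k κ₁ (c c'))) Finset.univ).trans
        (Finset.prod_congr rfl fun _ _ => rfl)
    change S = ((∏ x : Fin J, ((⟨g, hgR⟩ : R) - algebraMap κ₁ R (algebraMap k κ₁ (c x))) : R) : C) *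
      ((∏ j : Fin J, (-1 : C)) * S')
    rw [h7, hSS, ← mul_assoc, ← Finset.prod_mul_distrib]
    congr 1
    refine Finset.prod_congr rfl fun j _ => ?_
    ring) hfin
  rw [Finset.sum_map] at h6
  have h7 : ∀ j : Fin J, Module.finrank κ₁ (R ⧸ Ideal.span {(⟨g, hgR⟩ : R) -
      algebraMap κ₁ R (algebraMap k κ₁ (c j))}) = dg κ (insert g (Set.range ρ)) := by
    intro j
    have h8 := hcX j
    rw [← hdg g]
    exact not_not.mp h8
  have h10 := (Finset.sum_congr rfl fun j _ => h7 j).symm.trans_le h6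
  rw [Finset.sum_const, Finset.card_univ, Fintype.card_fin, smul_eq_mul] at h10
  exact h10.trans hle

end Pool.Agent.H21.EDM.ZC
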